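import Mathlib
import Pool.Agent.H83.Geo.Bridge
import Pool.Agent.H83.Geo.S3Final
import Pool.Agent.H83.Geo.LCExists

set_option autoImplicit false

/-! No Riemannian metric on the product of two 3-spheres has a 4-positive curvature operator. -/

namespace Pool.Agent.Results.MP_b50944_gt.ProductOfThreeSpheres

open Pool.Agent.H83.CurvOp
open scoped Manifold ContDiff

theorem aux (g : RiemannMetric ((𝓡 3).prod (𝓡 3)) (Sphere 3 × Sphere 3)) : ¬ OperatorPositive 6 4 g := by
  obtain ⟨nabla, h⟩ := Pool.Agent.H83.Geo.exists_LC g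
  obtain ⟨x, e, h1, h2, hA, s, hs, hle⟩ := Pool.Agent.H83.Geo.s3_main g nabla h
  exact not_positive g nabla h x e h1 (h2 x) hA s hs hle

theorem result : ¬ ∃ g : RiemannMetric (sphereModel 3) (SphereProd 3), OperatorPositive 6 4 g := by
  rintro ⟨g, hg⟩
  exact aux g hg

end Pool.Agent.Results.MP_b50944_gt.ProductOfThreeSpheres
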